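import Mathlib
import Pool.Agent.X130.TF.Corr

set_option autoImplicit false

namespace Pool.Agent.Results.MP_2afc76_lc.DirTwoFactorNPHard

/-- Deciding whether the underlying graph of a given digraph has a 2-factor one of whose cycles is a
directed cycle of the digraph is NP-hard. -/
theorem result : Pool.Agent.NPC.NPHardP Pool.Agent.X130.TF.DirTwoFactor :=
  Pool.Agent.X130.TF.hard

end Pool.Agent.Results.MP_2afc76_lc.DirTwoFactorNPHard
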